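import Pool.Agent.Q35.ST.Stm

/-! Job RI of project ST (helper35): conics through rational points with a given tangent vector. -/

set_option autoImplicit false

namespace Pool.Agent.Q111.ST

open MvPolynomial Pool.Agent.Q35.ST Pool.Agent.TH178.MZ

section

variable {κ : Type} [Fintype κ] [DecidableEq κ] {n : κ → ℕ} {k : Type} [Field k]

/-- the weight which counts the variables of the factor `l` -/
def wt (l : κ) : Pc n → ℕ := fun s => if s.1 = l then 1 else 0

lemma weight_wt (l : κ) (m : Pc n →₀ ℕ) : Finsupp.weight (wt l) m = ∑ i, m ⟨l, i⟩ := by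
  rw [Finsupp.weight_apply, Finsupp.sum_fintype _ _ (by simp), Fintype.sum_sigma,
    Finset.sum_eq_single l]
  · simp [wt]
  · intro b _ hb
    simp [wt, hb]
  · simp

lemma mh_wh {T : Set κ} {d : κ → ℕ} {F : MvPolynomial (Pc n) k} (h : MH T d F) {l : κ}
    (hl : l ∈ T) : IsWeightedHomogeneous (wt l) F (d l) := by
  intro m hm
  rw [weight_wt]
  exact h m (mem_support_iff.2 hm) l hl

lemma wh_scale {l : κ} {e : ℕ} {F : MvPolynomial (Pc n) k} (h : IsWeightedHomogeneous (wt l) F e)
    (c : k) (z : Pc n → k) :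
    eval (fun s => if s.1 = l then c * z s else z s) F = c ^ e * eval z F := by
  rw [eval_eq', eval_eq', Finset.mul_sum]
  refine Finset.sum_congr rfl fun m hm => ?_
  have h1 := h (mem_support_iff.1 hm)
  rw [Finsupp.weight_apply, Finsupp.sum_fintype _ _ (by simp)] at h1
  have h2 : ∏ s : Pc n, (if s.1 = l then c * z s else z s) ^ m s =
      c ^ e * ∏ s : Pc n, z s ^ m s := by
    rw [← h1, ← Finset.prod_pow_eq_pow_sum, ← Finset.prod_mul_distrib]
    refine Finset.prod_congr rfl fun s _ => ?_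
    by_cases hs : s.1 = l
    · simp [wt, hs, mul_pow]
    · simp [wt, hs]
  rw [h2]
  ring

lemma wh_indep {l : κ} {F : MvPolynomial (Pc n) k} (h : IsWeightedHomogeneous (wt l) F 0)
    {z z' : Pc n → k} (hz : ∀ s : Pc n, s.1 ≠ l → z s = z' s) : eval z F = eval z' F := by
  rw [eval_eq', eval_eq']
  refine Finset.sum_congr rfl fun m hm => ?_
  have h1 := h (mem_support_iff.1 hm)
  rw [weight_wt, Finset.sum_eq_zero_iff] at h1
  congr 1
  refine Finset.prod_congr rfl fun s _ => ?_
  by_cases hs : s.1 = l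
  · obtain ⟨j, i⟩ := s
    dsimp only at hs
    subst hs
    rw [h1 i (Finset.mem_univ i), pow_zero, pow_zero]
  · rw [hz s hs]

lemma wh_pderiv_zero {l : κ} {F : MvPolynomial (Pc n) k} (h : IsWeightedHomogeneous (wt l) F 0)
    (i : Fin (n l + 1)) : pderiv ⟨l, i⟩ F = 0 := by
  refine pderiv_eq_zero_of_notMem_vars fun hv => ?_
  obtain ⟨m, hm, hi⟩ := (mem_vars_iff_mem_support _).1 hv
  have h1 := h (mem_support_iff.1 hm)
  rw [weight_wt, Finset.sum_eq_zero_iff] at h1
  exact (Finsupp.mem_support_iff.1 hi) (h1 i (Finset.mem_univ i))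

omit [Fintype κ] in
lemma wh_pderiv {l : κ} {e : ℕ} {F : MvPolynomial (Pc n) k}
    (h : IsWeightedHomogeneous (wt l) F (e + 1)) (i : Fin (n l + 1)) :
    IsWeightedHomogeneous (wt l) (pderiv ⟨l, i⟩ F) e :=
  h.pderiv (by simp [wt])

lemma wh_euler {l : κ} {e : ℕ} {F : MvPolynomial (Pc n) k}
    (h : IsWeightedHomogeneous (wt l) F e) (z : Pc n → k) :
    ∑ i, z ⟨l, i⟩ * eval z (pderiv ⟨l, i⟩ F) = e * eval z F := by
  have h1 := congrArg (eval z) h.sum_weight_X_mul_pderiv
  rw [map_sum, Fintype.sum_sigma, Finset.sum_eq_single l] at h1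
  · simpa [wt] using h1
  · intro b _ hb
    simp [wt, hb]
  · simp

omit [Fintype κ] [DecidableEq κ] in
lemma pd_comm {σ : Type} (i j : σ) (f : MvPolynomial σ k) :
    pderiv i (pderiv j f) = pderiv j (pderiv i f) := by
  have h : ⁅(pderiv i : Derivation k (MvPolynomial σ k) (MvPolynomial σ k)),
      (pderiv j : Derivation k (MvPolynomial σ k) (MvPolynomial σ k))⁆ = 0 := by
    apply MvPolynomial.derivation_ext
    intro x
    classical
    simp only [Derivation.commutator_apply, Derivation.zero_apply, pderiv_X]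
    by_cases h1 : x = i <;> by_cases h2 : x = j <;>
      simp [Pi.single_apply, h1, h2] <;> split_ifs <;> simp
  have := congrArg (fun D => D f) h
  simp only [Derivation.commutator_apply, Derivation.zero_apply] at this
  exact sub_eq_zero.mp this

/-- the quadratic expansion of a form of degree at most two in the coordinates of the factor `l` -/
lemma expansion [CharZero k] {l : κ} {e : ℕ} {F : MvPolynomial (Pc n) k}
    (h : IsWeightedHomogeneous (wt l) F e) (he : e ≤ 2) (y : Pc n → k) :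
    ∃ c : Fin (n l + 1) → Fin (n l + 1) → k, ∀ a : Pc n → k, (∀ s : Pc n, s.1 ≠ l → a s = 0) →
      eval (fun s => y s + a s) F = eval y F + ∑ i, a ⟨l, i⟩ * eval y (pderiv ⟨l, i⟩ F) +
        ∑ i, ∑ j, c i j * (a ⟨l, i⟩ * a ⟨l, j⟩) := by
  interval_cases e
  · refine ⟨fun _ _ => 0, fun a ha => ?_⟩
    simp only [wh_pderiv_zero h, map_zero, mul_zero, Finset.sum_const_zero, add_zero, zero_mul]
    exact wh_indep h fun s hs => by rw [ha s hs, add_zero]
  · refine ⟨fun _ _ => 0, fun a ha => ?_⟩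
    have h1 := wh_euler h (fun s => y s + a s)
    have h2 := wh_euler h y
    have h3 : ∀ i, eval (fun s => y s + a s) (pderiv ⟨l, i⟩ F) = eval y (pderiv ⟨l, i⟩ F) :=
      fun i => wh_indep (wh_pderiv h i) fun s hs => by rw [ha s hs, add_zero]
    simp only [h3, Nat.cast_one, one_mul] at h1 h2
    rw [← h1, ← h2]
    simp only [zero_mul, Finset.sum_const_zero, add_zero]
    rw [← Finset.sum_add_distrib]
    exact Finset.sum_congr rfl fun i _ => by ring
  · set c : Fin (n l + 1) → Fin (n l + 1) → k :=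
      fun i j => eval y (pderiv ⟨l, j⟩ (pderiv ⟨l, i⟩ F)) with hc
    have hsymm : ∀ i j, c i j = c j i := by
      intro i j
      rw [hc]
      dsimp only
      rw [pd_comm]
    have key : ∀ z : Pc n → k, (∀ s : Pc n, s.1 ≠ l → z s = y s) →
        (∀ i, eval z (pderiv ⟨l, i⟩ F) = ∑ j, z ⟨l, j⟩ * c i j) ∧
        2 * eval z F = ∑ i, z ⟨l, i⟩ * ∑ j, z ⟨l, j⟩ * c i j := by
      intro z hz
      have h1 : ∀ i, eval z (pderiv ⟨l, i⟩ F) = ∑ j, z ⟨l, j⟩ * c i j := by
        intro i
        have h2 := wh_euler (wh_pderiv h i) z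
        rw [Nat.cast_one, one_mul] at h2
        rw [← h2]
        refine Finset.sum_congr rfl fun j _ => ?_
        rw [hc]
        dsimp only
        rw [wh_indep (wh_pderiv (wh_pderiv h i) j) hz]
      refine ⟨h1, ?_⟩
      have h2 := wh_euler h z
      rw [Nat.cast_two] at h2
      rw [← h2]
      exact Finset.sum_congr rfl fun i _ => by rw [h1]
    refine ⟨fun i j => c i j / 2, fun a ha => ?_⟩
    obtain ⟨h1, h2⟩ := key y fun _ _ => rfl
    obtain ⟨-, h4⟩ := key (fun s => y s + a s) fun s hs => by rw [ha s hs, add_zero]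
    have h5 : ∑ i, ∑ j, y ⟨l, i⟩ * a ⟨l, j⟩ * c i j = ∑ i, ∑ j, a ⟨l, i⟩ * y ⟨l, j⟩ * c i j := by
      rw [Finset.sum_comm]
      refine Finset.sum_congr rfl fun i _ => Finset.sum_congr rfl fun j _ => ?_
      rw [hsymm]
      ring
    have h6 : (2 : k) ≠ 0 := two_ne_zero
    refine mul_left_cancel₀ h6 ?_
    rw [h4, mul_add, mul_add, h2]
    simp only [h1, Finset.mul_sum]
    have e1 : ∑ i, ∑ j, (y ⟨l, i⟩ + a ⟨l, i⟩) * ((y ⟨l, j⟩ + a ⟨l, j⟩) * c i j) =
        (∑ i, ∑ j, y ⟨l, i⟩ * (y ⟨l, j⟩ * c i j)) + (∑ i, ∑ j, y ⟨l, i⟩ * a ⟨l, j⟩ * c i j) +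
        (∑ i, ∑ j, a ⟨l, i⟩ * y ⟨l, j⟩ * c i j) + ∑ i, ∑ j, a ⟨l, i⟩ * a ⟨l, j⟩ * c i j := by
      simp only [← Finset.sum_add_distrib]
      exact Finset.sum_congr rfl fun i _ => Finset.sum_congr rfl fun j _ => by ring
    have e2 : ∑ i, ∑ j, 2 * (a ⟨l, i⟩ * (y ⟨l, j⟩ * c i j)) =
        (∑ i, ∑ j, a ⟨l, i⟩ * y ⟨l, j⟩ * c i j) + ∑ i, ∑ j, a ⟨l, i⟩ * y ⟨l, j⟩ * c i j := by
      simp only [← Finset.sum_add_distrib]
      exact Finset.sum_congr rfl fun i _ => Finset.sum_congr rfl fun j _ => by ring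
    have e3 : ∑ i, ∑ j, 2 * (c i j / 2 * (a ⟨l, i⟩ * a ⟨l, j⟩)) =
        ∑ i, ∑ j, a ⟨l, i⟩ * a ⟨l, j⟩ * c i j :=
      Finset.sum_congr rfl fun i _ => Finset.sum_congr rfl fun j _ => by field_simp
    rw [e1, e2, e3, h5]
    ring

lemma pair_curve [CharZero k] {l : κ} {e : ℕ} {F : MvPolynomial (Pc n) k}
    (h : IsWeightedHomogeneous (wt l) F e) (he : e ≤ 2) (y : Pc n → k) (hy : eval y F = 0)
    (v : Pc n → k) (hv : ∀ s : Pc n, s.1 ≠ l → v s = 0)
    (hB : ∑ i, v ⟨l, i⟩ * eval y (pderiv ⟨l, i⟩ F) = 0) (m : Fin (n l + 1))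
    (hm : eval y (pderiv ⟨l, m⟩ F) ≠ 0) :
    ∃ (num : Pc n → Polynomial k) (den : Polynomial k) (c : k),
    den.eval 0 ≠ 0 ∧ c ≠ 0 ∧
    (∀ s, (num s).eval 0 = den.eval 0 * y s) ∧
    (∀ s, (num s).derivative.eval 0 = den.derivative.eval 0 * y s + c * v s) ∧
    ∀ t : k, den.eval t ≠ 0 → eval (fun s => (num s).eval t / den.eval t) F = 0 := by
  obtain ⟨c, hc⟩ := expansion h he y
  simp only [hy, zero_add] at hc
  set b := eval y (pderiv ⟨l, m⟩ F) with hb
  by_cases hq : ∑ i, ∑ j, c i j * (v ⟨l, i⟩ * v ⟨l, j⟩) = 0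
  · refine ⟨fun s => Polynomial.C (y s) + Polynomial.C (v s) * Polynomial.X, 1, 1, by simp,
      one_ne_zero, fun s => by simp, fun s => by simp, fun t _ => ?_⟩
    have h1 := hc (fun s => t * v s) fun s hs => by rw [hv s hs, mul_zero]
    have h2 : (fun s => (Polynomial.C (y s) + Polynomial.C (v s) * Polynomial.X :
        Polynomial k).eval t / (1 : Polynomial k).eval t) = fun s => y s + t * v s := by
      funext s
      simp
      ring
    rw [h2, h1]
    have h3 : ∑ i, t * v ⟨l, i⟩ * eval y (pderiv ⟨l, i⟩ F) = 0 := by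
      rw [← mul_zero t, ← hB, Finset.mul_sum]
      exact Finset.sum_congr rfl fun i _ => by ring
    have h4 : ∑ i, ∑ j, c i j * (t * v ⟨l, i⟩ * (t * v ⟨l, j⟩)) = 0 := by
      rw [← mul_zero (t ^ 2), ← hq]
      simp only [Finset.mul_sum]
      exact Finset.sum_congr rfl fun i _ => Finset.sum_congr rfl fun j _ => by ring
    rw [h3, h4, add_zero]
  · set w : Pc n → k := fun s => if s = ⟨l, m⟩ then 1 else 0 with hw
    have hw0 : ∀ s : Pc n, s.1 ≠ l → w s = 0 := by
      intro s hs
      rw [hw]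
      dsimp only
      rw [if_neg]
      rintro rfl
      exact hs rfl
    have hwB : ∑ i, w ⟨l, i⟩ * eval y (pderiv ⟨l, i⟩ F) = b := by
      rw [Finset.sum_eq_single m]
      · simp [hw, hb]
      · intro i _ hi
        simp [hw, hi]
      · simp
    set D : Polynomial k := ∑ i, ∑ j, Polynomial.C (c i j) *
      ((Polynomial.C (v ⟨l, i⟩) + Polynomial.C (w ⟨l, i⟩) * Polynomial.X) *
        (Polynomial.C (v ⟨l, j⟩) + Polynomial.C (w ⟨l, j⟩) * Polynomial.X)) with hD
    have hDt : ∀ t, D.eval t = ∑ i, ∑ j, c i j *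
        ((v ⟨l, i⟩ + w ⟨l, i⟩ * t) * (v ⟨l, j⟩ + w ⟨l, j⟩ * t)) := by
      intro t
      rw [hD]
      simp only [Polynomial.eval_finsetSum, Polynomial.eval_mul, Polynomial.eval_add,
        Polynomial.eval_C, Polynomial.eval_X]
    refine ⟨fun s => Polynomial.C (y s) * D - Polynomial.C b * Polynomial.X *
      (Polynomial.C (v s) + Polynomial.C (w s) * Polynomial.X), D, -b, ?_, neg_ne_zero.2 hm,
      fun s => ?_, fun s => ?_, fun t ht => ?_⟩
    · rw [hDt]
      simpa using hq
    · simp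
      ring
    · simp
      ring
    · set r : k := -(b * t) / D.eval t with hr
      have h2 : (fun s => (Polynomial.C (y s) * D - Polynomial.C b * Polynomial.X *
          (Polynomial.C (v s) + Polynomial.C (w s) * Polynomial.X) : Polynomial k).eval t /
            D.eval t) = fun s => y s + r * (v s + w s * t) := by
        funext s
        rw [hr]
        simp only [Polynomial.eval_mul, Polynomial.eval_sub, Polynomial.eval_add,
          Polynomial.eval_C, Polynomial.eval_X]
        field_simp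
        ring
      rw [h2, hc (fun s => r * (v s + w s * t)) fun s hs => by
        rw [hv s hs, hw0 s hs]; ring]
      have h3 : ∑ i, r * (v ⟨l, i⟩ + w ⟨l, i⟩ * t) * eval y (pderiv ⟨l, i⟩ F) = r * t * b := by
        rw [← hwB]
        have : ∑ i, r * (v ⟨l, i⟩ + w ⟨l, i⟩ * t) * eval y (pderiv ⟨l, i⟩ F) =
            r * ∑ i, v ⟨l, i⟩ * eval y (pderiv ⟨l, i⟩ F) +
            r * t * ∑ i, w ⟨l, i⟩ * eval y (pderiv ⟨l, i⟩ F) := by
          rw [Finset.mul_sum, Finset.mul_sum, ← Finset.sum_add_distrib]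
          exact Finset.sum_congr rfl fun i _ => by ring
        rw [this, hB, mul_zero, zero_add]
      have h4 : ∑ i, ∑ j, c i j * (r * (v ⟨l, i⟩ + w ⟨l, i⟩ * t) *
          (r * (v ⟨l, j⟩ + w ⟨l, j⟩ * t))) = r ^ 2 * D.eval t := by
        rw [hDt]
        simp only [Finset.mul_sum]
        exact Finset.sum_congr rfl fun i _ => Finset.sum_congr rfl fun j _ => by ring
      rw [h3, h4, hr]
      field_simp
      ring

end

theorem ri : S_RI := by
  intro κ _ _ n k _ _ F d hF l hl
  have hwh := mh_wh hF (Set.mem_univ l)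
  constructor
  · intro i j y hy hV
    have hy' : eval y F = 0 := hy
    set V : Derivation k (MvPolynomial (Pc n) k) (MvPolynomial (Pc n) k) :=
      (pderiv (⟨l, i⟩ : Pc n) F) • (pderiv ⟨l, j⟩ : Derivation k _ (MvPolynomial (Pc n) k)) -
      (pderiv (⟨l, j⟩ : Pc n) F) • (pderiv ⟨l, i⟩ : Derivation k _ (MvPolynomial (Pc n) k)) with hVd
    have hval : ∀ s : Pc n, valueAt y V s = eval y (pderiv ⟨l, i⟩ F) *
        (if s = ⟨l, j⟩ then 1 else 0) - eval y (pderiv ⟨l, j⟩ F) *
        (if s = ⟨l, i⟩ then 1 else 0) := by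
      intro s
      rw [valueAt_apply, hVd]
      simp only [Derivation.sub_apply, Derivation.smul_apply, smul_eq_mul, map_sub, map_mul,
        pderiv_X, Pi.single_apply]
      congr 1 <;> · split_ifs <;> simp
    have hm : eval y (pderiv ⟨l, i⟩ F) ≠ 0 ∨ eval y (pderiv ⟨l, j⟩ F) ≠ 0 := by
      by_contra hcon
      push Not at hcon
      apply hV
      funext s
      rw [hval, hcon.1, hcon.2]
      simp
    have hv0 : ∀ s : Pc n, s.1 ≠ l → valueAt y V s = 0 := by
      intro s hs
      rw [hval, if_neg, if_neg]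
      · ring
      · rintro rfl
        exact hs rfl
      · rintro rfl
        exact hs rfl
    have hB : ∑ i', valueAt y V ⟨l, i'⟩ * eval y (pderiv ⟨l, i'⟩ F) = 0 := by
      simp only [hval, sub_mul, Finset.sum_sub_distrib]
      have h1 : ∀ (a : k) (j' : Fin (n l + 1)), ∑ x, a * (if (⟨l, x⟩ : Pc n) = ⟨l, j'⟩ then 1 else 0) *
          eval y (pderiv ⟨l, x⟩ F) = a * eval y (pderiv ⟨l, j'⟩ F) := by
        intro a j'
        rw [Finset.sum_eq_single j']
        · simp
        · intro x _ hx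
          simp [hx]
        · simp
      rw [h1, h1]
      ring
    rcases hm with hm | hm
    · exact pair_curve hwh hl y hy' _ hv0 hB i hm
    · exact pair_curve hwh hl y hy' _ hv0 hB j hm
  · intro y hy hV
    have hy' : eval y F = 0 := hy
    have hval : ∀ s : Pc n, valueAt y (∑ i : Fin (n l + 1),
        (X (⟨l, i⟩ : Pc n) : MvPolynomial (Pc n) k) •
        (pderiv ⟨l, i⟩ : Derivation k _ (MvPolynomial (Pc n) k))) s =
        if s.1 = l then y s else 0 := by
      intro s
      rw [map_sum, Finset.sum_apply]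
      simp only [valueAt_apply, Derivation.smul_apply, smul_eq_mul, map_mul, eval_X, pderiv_X,
        Pi.single_apply]
      by_cases hs : s.1 = l
      · obtain ⟨j, i⟩ := s
        dsimp only at hs
        subst hs
        rw [Finset.sum_eq_single i]
        · simp
        · intro x _ hx
          have : (⟨j, i⟩ : Pc n) ≠ ⟨j, x⟩ := by
            intro h
            apply hx
            simpa using h.symm
          simp [this]
        · simp
      · rw [if_neg hs]
        refine Finset.sum_eq_zero fun i _ => ?_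
        have : s ≠ (⟨l, i⟩ : Pc n) := by
          rintro rfl
          exact hs rfl
        simp [this]
    refine ⟨fun s => if s.1 = l then (1 + Polynomial.X) * Polynomial.C (y s) else
      Polynomial.C (y s), 1, 1, by simp, one_ne_zero, fun s => ?_, fun s => ?_, fun t _ => ?_⟩
    · dsimp only
      split_ifs <;> simp
    · rw [hval]
      dsimp only
      split_ifs <;> simp
    · show eval _ F = 0
      have h1 := wh_scale hwh (1 + t) y
      rw [hy', mul_zero] at h1
      rw [← h1]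
      congr 1
      refine congrArg _ ?_
      funext s
      dsimp only
      split_ifs <;> simp

end Pool.Agent.Q111.ST
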