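import Pool.Agent.Q35.ST.Stm
import Pool.Agent.Y200.CB.Der
import Pool.Agent.Y200.CY.Gs

/-! Job U of project ST (helper35): the special points are isolated. -/

set_option autoImplicit false

namespace Pool.Agent.Q111.ST.U

open MvPolynomial Pool.Agent.Q35.ST

/-- an element of an extension field killed by all derivations over an algebraically closed field of
characteristic zero is a constant -/
lemma const_of_der {k E : Type} [Field k] [Field E] [Algebra k E] [CharZero k] [IsAlgClosed k]
    (x : E) (h : ∀ D : Derivation k E E, D x = 0) : ∃ c : k, algebraMap k E c = x := by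
  by_cases hx : IsAlgebraic k x
  · have h1 : IsIntegral k x := hx.isIntegral
    have h2 : (minpoly k x).degree = 1 :=
      IsAlgClosed.degree_eq_one_of_irreducible k (minpoly.irreducible h1)
    exact minpoly.mem_range_of_degree_eq_one k x h2
  · have h1 : AlgebraicIndependent k (fun _ : Fin 1 => x) :=
      algebraicIndependent_unique_type_iff.2 hx
    obtain ⟨D, hD⟩ := Pool.Agent.Y200.CB.exists_der (fun _ : Fin 1 => x) h1 (fun _ => 1)
    exact absurd ((h D).symm.trans (hD 0)) zero_ne_one

lemma wh_indep {σ k : Type} [Fintype σ] [Field k] {w : σ → ℕ} {f : MvPolynomial σ k}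
    (h : IsWeightedHomogeneous w f 0) {z z' : σ → k} (hz : ∀ s, w s = 0 → z s = z' s) :
    eval z f = eval z' f := by
  rw [eval_eq', eval_eq']
  refine Finset.sum_congr rfl fun m hm => ?_
  have h1 := h (mem_support_iff.1 hm)
  rw [Finsupp.weight_apply, Finsupp.sum_fintype _ _ (by simp), Finset.sum_eq_zero_iff] at h1
  congr 1
  refine Finset.prod_congr rfl fun s _ => ?_
  by_cases hs : w s = 0
  · rw [hz s hs]
  · have h2 := h1 s (Finset.mem_univ s)
    rw [smul_eq_mul, Nat.mul_eq_zero, or_iff_left hs] at h2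
    rw [h2, pow_zero, pow_zero]

lemma wh_of_vars {σ k : Type} [Fintype σ] [Field k] {w : σ → ℕ} {f : MvPolynomial σ k}
    (h : ∀ s ∈ f.vars, w s = 0) : IsWeightedHomogeneous w f 0 := by
  intro m hm
  rw [Finsupp.weight_apply, Finsupp.sum_fintype _ _ (by simp)]
  refine Finset.sum_eq_zero fun s _ => ?_
  by_cases hs : m s = 0
  · rw [hs, zero_smul]
  · rw [h s ((mem_vars_iff_mem_support _).2 ⟨m, mem_support_iff.2 hm,
      Finsupp.mem_support_iff.2 hs⟩), smul_zero]

lemma eval_of_vars {σ k : Type} [Fintype σ] [Field k] {w : σ → ℕ} {f : MvPolynomial σ k}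
    (h : ∀ s ∈ f.vars, w s = 0) {z z' : σ → k} (hz : ∀ s, w s = 0 → z s = z' s) :
    eval z f = eval z' f ∧ ∀ i, w i = 0 → eval z (pderiv i f) = eval z' (pderiv i f) :=
  ⟨wh_indep (wh_of_vars h) hz, fun i hi =>
    wh_indep ((wh_of_vars h).pderiv (n' := 0) (by rw [hi])) hz⟩

/-- proportionality of the coefficients modulo `Q` -/
lemma proportional {σ k : Type} [Fintype σ] [Field k] [CharZero k] [IsAlgClosed k]
    (Q : Ideal (MvPolynomial σ k)) (hQ : Q.IsPrime) (a b : MvPolynomial σ k) (ha : a ∉ Q)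
    (h : ∀ s, a * pderiv s b - b * pderiv s a ∈ Q) : ∃ c : k, b - C c * a ∈ Q := by
  let R := MvPolynomial σ k ⧸ Q
  have : IsDomain R := Ideal.Quotient.isDomain Q
  let E := FractionRing R
  let φ : MvPolynomial σ k →ₐ[k] E := (Algebra.ofId R E |>.restrictScalars k).comp
    (Ideal.Quotient.mkₐ k Q)
  have hφ : ∀ f, φ f = 0 ↔ f ∈ Q := by
    intro f
    show algebraMap R E (Ideal.Quotient.mk Q f) = 0 ↔ f ∈ Q
    rw [FaithfulSMul.algebraMap_eq_zero_iff, Ideal.Quotient.eq_zero_iff_mem]
  have hφa : φ = aeval (fun s => φ (X s)) := by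
    ext s
    simp
  have ha0 : φ a ≠ 0 := fun h0 => ha ((hφ a).1 h0)
  obtain ⟨c, hc⟩ := const_of_der (k := k) (φ b / φ a) (by
    intro D
    have h1 : ∀ f, D (φ f) = ∑ s, φ (pderiv s f) * D (φ (X s)) := by
      intro f
      have := Pool.Agent.Y200.CY.Gs.chain D (fun s => φ (X s)) f
      rwa [← hφa] at this
    have h2 : φ b = φ b / φ a * φ a := (div_mul_cancel₀ _ ha0).symm
    have h3 : D (φ b) = φ b / φ a * D (φ a) + φ a * D (φ b / φ a) := by
      conv_lhs => rw [h2]
      rw [D.leibniz, smul_eq_mul, smul_eq_mul]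
    have h4 : φ a * D (φ b) - φ b * D (φ a) = 0 := by
      rw [h1, h1, Finset.mul_sum, Finset.mul_sum, ← Finset.sum_sub_distrib]
      refine Finset.sum_eq_zero fun s _ => ?_
      have h5 := (hφ _).2 (h s)
      rw [map_sub, map_mul, map_mul] at h5
      linear_combination (D (φ (X s))) * h5
    have h5 : φ a * φ a * D (φ b / φ a) = 0 := by
      have h6 : φ a * (φ b / φ a) = φ b := by
        rw [mul_comm]
        exact div_mul_cancel₀ _ ha0
      linear_combination h4 - φ a * h3 - D (φ a) * h6
    rcases mul_eq_zero.1 h5 with h6 | h6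
    · exact absurd (mul_self_eq_zero.1 h6) ha0
    · exact h6)
  refine ⟨c, (hφ _).1 ?_⟩
  rw [map_sub, map_mul, ← algebraMap_eq, AlgHom.commutes, hc, div_mul_cancel₀ _ ha0, sub_self]

theorem u (ln : S_LN) : S_U := by
  intro κ _ _ n k _ _ _ F d hF hd hn hsm S hS M co hM1 hM2 hco1 hco2 hFe Q hQ hStE hX hrel hex
    y y' hy hy' hyn hyn' l hl
  by_contra hnp
  obtain ⟨c0, hc0, hc0Q⟩ := hex
  -- the weight of the variables outside `S`
  set w : Pc n → ℕ := fun s => if s.1 ∈ S then 0 else 1 with hw
  have hw0 : ∀ s : Pc n, w s = 0 ↔ s.1 ∈ S := by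
    intro s
    rw [hw]
    by_cases h : s.1 ∈ S <;> simp [h]
  have hpz : ∀ c ∈ M, ∀ s : Pc n, s.1 ∉ S → pderiv s (co c) = 0 := fun c hc s hs =>
    pderiv_eq_zero_of_notMem_vars fun h => hs (hco1 c hc s h)
  -- the coefficients are proportional
  have hg : ∀ c, ∃ g : k, c ∈ M → co c - C g * co c0 ∈ Q := by
    intro c
    by_cases hc : c ∈ M
    · obtain ⟨g, hg⟩ := proportional Q hQ (co c0) (co c) hc0Q (fun s => by
        by_cases hs : s.1 ∈ S
        · exact hrel c hc c0 hc0 s hs
        · rw [hpz c hc s hs, hpz c0 hc0 s hs, mul_zero, mul_zero, sub_zero]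
          exact Q.zero_mem)
      exact ⟨g, fun _ => hg⟩
    · exact ⟨0, fun h => absurd h hc⟩
  choose g hg using hg
  have hgd : ∀ c ∈ M, ∀ s : Pc n, s.1 ∈ S → pderiv s (co c) - C (g c) * pderiv s (co c0) ∈ Q := by
    intro c hc s hs
    have h1 := hrel c hc c0 hc0 s hs
    have h2 := Q.mul_mem_right (pderiv s (co c0)) (hg c hc)
    have h3 : co c0 * (pderiv s (co c) - C (g c) * pderiv s (co c0)) ∈ Q := by
      have : co c0 * (pderiv s (co c) - C (g c) * pderiv s (co c0)) =
          (co c0 * pderiv s (co c) - co c * pderiv s (co c0)) +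
          (co c - C (g c) * co c0) * pderiv s (co c0) := by ring
      rw [this]
      exact Q.add_mem h1 h2
    exact (hQ.mem_or_mem h3).resolve_left hc0Q
  -- a zero of `co c0` on `Q`
  obtain ⟨z, hzQ, hzn, hz0⟩ := ln κ n k Finset.univ Q hQ (fun l _ => hStE l) y
    (fun s hs => absurd (Finset.mem_univ _) hs) y y' hy hy' (by simpa using hyn)
    (by simpa using hyn') l (Finset.mem_univ l) hnp (co c0) (fun l => if l ∈ S then d l else 0)
    (by
      intro m hm l' _
      dsimp only
      split_ifs with hl'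
      · exact hco2 c0 hc0 m hm l' hl'
      · refine Finset.sum_eq_zero fun i _ => ?_
        by_contra h0
        exact hl' (hco1 c0 hc0 ⟨l', i⟩ ((mem_vars_iff_mem_support _).2
          ⟨m, hm, Finsupp.mem_support_iff.2 h0⟩)))
    (by rw [if_pos hl]; exact hd l)
  rw [Finset.coe_univ] at hzn
  have hzc : ∀ c ∈ M, eval z (co c) = 0 := by
    intro c hc
    have := hzQ _ (hg c hc)
    rw [map_sub, map_mul, eval_C, hz0, mul_zero, sub_zero] at this
    exact this
  have hzd : ∀ c ∈ M, ∀ s : Pc n, s.1 ∈ S →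
      eval z (pderiv s (co c)) = g c * eval z (pderiv s (co c0)) := by
    intro c hc s hs
    have := hzQ _ (hgd c hc s hs)
    rw [map_sub, map_mul, eval_C] at this
    exact sub_eq_zero.1 this
  -- a zero of the form `G` in the other factors
  set G : MvPolynomial (Pc n) k := ∑ c ∈ M, C (g c) * monomial c 1 with hG
  obtain ⟨l1, hl1⟩ : ∃ l1, l1 ∉ S := by
    by_contra h
    push Not at h
    exact hS (Finset.eq_univ_iff_forall.2 h)
  have hbot : (⊥ : Ideal (MvPolynomial (Pc n) k)).IsPrime := Ideal.isPrime_bot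
  have hvb : ∀ x : Pc n → k, Van (⊥ : Ideal (MvPolynomial (Pc n) k)) x := by
    intro x f hf
    rw [Ideal.mem_bot.1 hf, map_zero]
  have hn1 := hn l1
  obtain ⟨t, -, htn, ht0⟩ := ln κ n k Finset.univ ⊥ hbot
    (fun l' _ f hf => by
      rw [Ideal.mem_bot] at hf ⊢
      rw [hf]
      simp)
    (fun _ => 1) (fun s hs => absurd (Finset.mem_univ _) hs) (fun _ => 1)
    (fun s => if s = (⟨l1, 0⟩ : Pc n) then 0 else 1) (hvb _) (hvb _)
    (fun l' _ => ⟨0, one_ne_zero⟩)
    (fun l' _ => ⟨Fin.last _, by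
      dsimp only
      rw [if_neg]
      · exact one_ne_zero
      · intro h
        have h1 : l' = l1 := congrArg Sigma.fst h
        subst h1
        have h2 : Fin.last (n l') = 0 := by simpa using h
        rw [Fin.ext_iff, Fin.val_last, Fin.val_zero] at h2
        omega⟩) l1 (Finset.mem_univ l1)
    (by
      rintro ⟨c, hc⟩
      have h1 := hc 0
      have h2 := hc (Fin.last _)
      rw [if_pos rfl, mul_one] at h1
      rw [if_neg, mul_one] at h2
      · rw [← h1] at h2
        exact one_ne_zero h2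
      · intro h
        have h2 : Fin.last (n l1) = 0 := by simpa using h
        rw [Fin.ext_iff, Fin.val_last, Fin.val_zero] at h2
        omega)
    G (fun l' => if l' ∈ S then 0 else d l')
    (by
      intro m hm l' _
      have hmM : m ∈ M := by
        by_contra hmM
        apply mem_support_iff.1 hm
        rw [hG, coeff_sum]
        refine Finset.sum_eq_zero fun c hc => ?_
        rw [coeff_C_mul, coeff_monomial, if_neg, mul_zero]
        rintro rfl
        exact hmM hc
      dsimp only
      split_ifs with hl'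
      · exact Finset.sum_eq_zero fun i _ => hM1 m hmM ⟨l', i⟩ hl'
      · exact hM2 m hmM l' hl')
    (by rw [if_neg hl1]; exact hd l1)
  rw [Finset.coe_univ] at htn
  -- the point
  set v : Pc n → k := fun s => if s.1 ∈ S then z s else t s with hv
  have hvz : ∀ s, w s = 0 → v s = z s := by
    intro s hs
    rw [hv]
    dsimp only
    rw [if_pos ((hw0 s).1 hs)]
  have hvn : Nz Set.univ v := by
    intro l' _
    by_cases hl' : l' ∈ S
    · obtain ⟨i, hi⟩ := hzn l' trivial
      exact ⟨i, by simpa [hv, hl'] using hi⟩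
    · obtain ⟨i, hi⟩ := htn l' trivial
      exact ⟨i, by simpa [hv, hl'] using hi⟩
  have hmon : ∀ c ∈ M, eval v (monomial c 1) = eval t (monomial c 1) := by
    intro c hc
    rw [eval_monomial, eval_monomial]
    congr 1
    refine Finsupp.prod_congr fun s hs => ?_
    have h1 : s.1 ∉ S := fun h => (Finsupp.mem_support_iff.1 hs) (hM1 c hc s h)
    rw [hv]
    dsimp only
    rw [if_neg h1]
  have hcv : ∀ c ∈ M, eval v (co c) = 0 := by
    intro c hc
    rw [(eval_of_vars (w := w) (fun s hs => (hw0 s).2 (hco1 c hc s hs)) hvz).1]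
    exact hzc c hc
  have hcd : ∀ c ∈ M, ∀ s : Pc n, s.1 ∈ S → eval v (pderiv s (co c)) =
      g c * eval z (pderiv s (co c0)) := by
    intro c hc s hs
    rw [(eval_of_vars (w := w) (fun s hs => (hw0 s).2 (hco1 c hc s hs)) hvz).2 s ((hw0 s).2 hs)]
    exact hzd c hc s hs
  have hFv : eval v F = 0 := by
    rw [hFe, map_sum]
    refine Finset.sum_eq_zero fun c hc => ?_
    rw [map_mul, hcv c hc, zero_mul]
  obtain ⟨s, hs⟩ := hsm v hvn hFv
  apply hs
  rw [hFe, map_sum, map_sum]
  have h1 : ∀ c ∈ M, eval v (pderiv s (co c * monomial c 1)) =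
      eval v (pderiv s (co c)) * eval t (monomial c 1) := by
    intro c hc
    rw [Derivation.leibniz, map_add, smul_eq_mul, smul_eq_mul, map_mul, map_mul, hcv c hc,
      zero_mul, zero_add, hmon c hc, mul_comm]
  rw [Finset.sum_congr rfl h1]
  by_cases hsS : s.1 ∈ S
  · have h2 : ∀ c ∈ M, eval v (pderiv s (co c)) * eval t (monomial c 1) =
        eval z (pderiv s (co c0)) * (g c * eval t (monomial c 1)) := by
      intro c hc
      rw [hcd c hc s hsS]
      ring
    rw [Finset.sum_congr rfl h2, ← Finset.mul_sum]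
    have h3 : ∑ c ∈ M, g c * eval t (monomial c 1) = eval t G := by
      rw [hG, map_sum]
      exact Finset.sum_congr rfl fun c _ => by rw [map_mul, eval_C]
    rw [h3, ht0, mul_zero]
  · refine Finset.sum_eq_zero fun c hc => ?_
    rw [hpz c hc s hsS, map_zero, zero_mul]

end Pool.Agent.Q111.ST.U
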